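import Pool.Agent.Y990.OA.Stm4

/-! SC-CARD: the number of tiles and the trivial bound for the number of spanning clusters -/

set_option autoImplicit false

namespace Pool.Agent.Y232.OA

open Pool.Agent.Y990.CB (Z Mod cl)
open Pool.Agent.Y990.OA (Qb Sp Tl S_scard)

theorem prod_N {d : ℕ} (i : Fin d) (N : ℕ) : ∏ j : Fin d, (if j = i then 1 else N) = N ^ (d - 1) := by
  classical
  rw [← Finset.mul_prod_erase Finset.univ _ (Finset.mem_univ i), if_pos rfl, one_mul]
  have h : ∏ j ∈ Finset.univ.erase i, (if j = i then 1 else N) =
      ∏ _j ∈ Finset.univ.erase i, N := by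
    refine Finset.prod_congr rfl fun j hj => ?_
    rw [if_neg (Finset.ne_of_mem_erase hj)]
  rw [h, Finset.prod_const, Finset.card_erase_of_mem (Finset.mem_univ i), Finset.card_univ,
    Fintype.card_fin]

theorem scard : S_scard := by
  classical
  constructor
  · intro d i n k
    have h : (Tl i n k).card ≤ (n / (2 * k + 1) + 2) ^ (d - 1) := by
      unfold Tl
      rw [Fintype.card_piFinset, ← prod_N i]
      refine Finset.prod_le_prod' fun j _ => ?_
      by_cases hj : j = i
      · rw [if_pos hj, if_pos hj, Finset.card_singleton]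
      · rw [if_neg hj, if_neg hj]
        exact Finset.card_image_le.trans (le_of_eq (Finset.card_range _))
    exact_mod_cast h
  · intro d M i n ω
    obtain ⟨F, hF⟩ : ∃ F : Finset (Z d), F = Fintype.piFinset (fun j : Fin d =>
        if j = i then ({0} : Finset ℤ) else Finset.Icc 0 (n : ℤ)) := ⟨_, rfl⟩
    have hcard : F.card = (n + 1) ^ (d - 1) := by
      rw [hF, Fintype.card_piFinset, ← prod_N i]
      refine Finset.prod_congr rfl fun j _ => ?_
      by_cases hj : j = i
      · rw [if_pos hj, if_pos hj, Finset.card_singleton]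
      · rw [if_neg hj, if_neg hj, Int.card_Icc]
        omega
    have hsub : Sp M i n ω ⊆ (fun x => cl M ω (Qb d n) x) '' (F : Set (Z d)) := by
      rintro X ⟨x, hx, hi, hX, _⟩
      refine ⟨x, ?_, hX.symm⟩
      rw [Finset.mem_coe, hF, Fintype.mem_piFinset]
      intro j
      by_cases hj : j = i
      · rw [if_pos hj, Finset.mem_singleton, hj]
        exact hi
      · rw [if_neg hj, Finset.mem_Icc]
        exact hx j
    have h1 : (Sp M i n ω).ncard ≤ F.card := by
      refine (Set.ncard_le_ncard hsub (F.finite_toSet.image _)).trans ?_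
      refine (Set.ncard_image_le F.finite_toSet).trans ?_
      rw [Set.ncard_coe_finset]
    rw [hcard] at h1
    exact_mod_cast h1

end Pool.Agent.Y232.OA
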